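import Pool.Agent.Q54.EM.StmE

set_option autoImplicit false
set_option linter.unusedSectionVars false

namespace Pool.Agent.Q96.EM

open Finset Pool.Agent.Q54.EM

/-- functions vanishing on the nonnegative half-line have expectation zero -/
theorem EE_zero {ι : Type} [Fintype ι] (p x : ι → ℝ) (hx : ∀ i, 0 ≤ x i) (n : ℕ) :
    ∀ f : ℝ → ℝ, (∀ a, 0 ≤ a → f a = 0) → EE p x n f = 0 := by
  induction n with
  | zero => intro f hf; exact hf 0 le_rfl
  | succ n ih =>
    intro f hf
    change ∑ i, p i * EE p x n (fun s => f (s + x i)) = 0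
    refine Finset.sum_eq_zero fun i _ => ?_
    rw [ih _ (fun a ha => hf _ (add_nonneg ha (hx i))), mul_zero]

theorem EE_mix {ι : Type} [Fintype ι] [DecidableEq ι] (p x : ι → ℝ) (k : ℝ) (t : ι) (s : ℝ)
    (hx : ∀ i, 0 ≤ x i) (ht : x t = k) (n : ℕ) : ∀ f : ℝ → ℝ, (∀ a, k ≤ a → f a = 0) →
    EE (fun i => (1 - s) * p i + if i = t then s else 0) x n f = (1 - s) ^ n * EE p x n f := by
  induction n with
  | zero => intro f _; simp [EE]
  | succ n ih =>
    intro f hf
    change ∑ i, ((1 - s) * p i + if i = t then s else 0) *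
      EE (fun i => (1 - s) * p i + if i = t then s else 0) x n (fun a => f (a + x i))
      = (1 - s) ^ (n + 1) * ∑ i, p i * EE p x n (fun a => f (a + x i))
    have h1 : ∀ i, EE (fun i => (1 - s) * p i + if i = t then s else 0) x n
        (fun a => f (a + x i)) = (1 - s) ^ n * EE p x n (fun a => f (a + x i)) := by
      intro i
      apply ih
      intro a ha
      exact hf _ (by linarith [hx i])
    have h2 : EE p x n (fun a => f (a + x t)) = 0 := by
      apply EE_zero p x hx
      intro a ha
      exact hf _ (by rw [ht]; linarith)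
    simp only [h1, add_mul, Finset.sum_add_distrib]
    have h3 : ∑ i, (if i = t then s else 0) * ((1 - s) ^ n * EE p x n (fun a => f (a + x i)))
        = 0 := by
      refine Finset.sum_eq_zero fun i _ => ?_
      by_cases hi : i = t
      · rw [hi, h2]; simp
      · rw [if_neg hi, zero_mul]
    rw [h3, add_zero, Finset.mul_sum]
    refine Finset.sum_congr rfl fun i _ => ?_
    rw [pow_succ]
    ring

/-- job MXT -/
theorem mxt : S_EEL → S_MXT := by
  intro _ ι _ _ p x k t s n hx ht
  unfold PR
  apply EE_mix p x k t s hx ht n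
  intro a ha
  rw [if_neg (not_lt.mpr ha)]

/-- job PSP -/
theorem psp : S_TUP → S_PSP := by
  intro hT ι _ p x k n hk hn hp h1 hx hm
  obtain ⟨i, hi, hxi⟩ : ∃ i, 0 < p i ∧ x i < 1 := by
    by_contra hcon
    push Not at hcon
    have h2 : ∑ i, p i ≤ mu p x := by
      unfold mu
      refine Finset.sum_le_sum fun i _ => ?_
      rcases (hp i).lt_or_eq with h | h
      · have := hcon i h
        nlinarith
      · rw [← h]; simp
    linarith
  unfold PR
  rw [hT]
  unfold TE
  have h3 : (∏ _j : Fin n, p i) * (if ∑ _j : Fin n, x i < (k : ℝ) then (1 : ℝ) else 0)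
      ≤ ∑ v : Fin n → ι, (∏ j, p (v j)) * (if ∑ j, x (v j) < (k : ℝ) then (1 : ℝ) else 0) := by
    refine Finset.single_le_sum
      (f := fun v : Fin n → ι => (∏ j, p (v j)) * (if ∑ j, x (v j) < (k : ℝ) then (1 : ℝ) else 0))
      (fun v _ => ?_) (Finset.mem_univ (fun _ => i))
    apply mul_nonneg
    · exact Finset.prod_nonneg fun j _ => hp _
    · split_ifs <;> norm_num
  refine lt_of_lt_of_le ?_ h3
  rw [Finset.prod_const, Finset.sum_const, Finset.card_univ, Fintype.card_fin, nsmul_eq_mul]
  have hnk : (n : ℝ) ≤ k := by exact_mod_cast hn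
  have hk1 : (1 : ℝ) ≤ k := by exact_mod_cast hk
  have h4 : (n : ℝ) * x i < k := by
    have h5 : (n : ℝ) * x i ≤ k * x i := mul_le_mul_of_nonneg_right hnk (hx i)
    nlinarith
  rw [if_pos h4, mul_one]
  exact pow_pos hi n

/-- job STR -/
theorem str : S_MXT → S_PSP → S_EEL → S_STR := by
  classical
  intro hM hP _ ι _ k r o t p x p' x' hk hr hmin hp0 hp1 hx0 hxk hxo hxt hmu
  have hk1 : (1 : ℝ) ≤ k := by exact_mod_cast hk
  have hpos := hP ι p' x' k k hk le_rfl hp0 hp1 hx0 (by linarith)
  set r' := mu p' x' with hr'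
  have hden : 0 < (k : ℝ) - r' := by linarith
  set s := (r - r') / (k - r') with hs
  have hs0 : 0 < s := div_pos (by linarith) hden
  have hs1 : s < 1 := by rw [hs, div_lt_one hden]; linarith
  have hsm : s * (k - r') = r - r' := by rw [hs]; field_simp
  have hfe : Feas k r o t (fun i => (1 - s) * p' i + if i = t then s else 0) x' :=
  { p0 := by
      intro i
      have h1 : 0 ≤ (1 - s) * p' i := mul_nonneg (by linarith) (hp0 i)
      have h2 : (0 : ℝ) ≤ if i = t then s else 0 := by split_ifs <;> linarith
      exact add_nonneg h1 h2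
    p1 := by
      rw [Finset.sum_add_distrib, ← Finset.mul_sum, hp1, Finset.sum_ite_eq' Finset.univ t]
      simp
    x0 := hx0
    xk := hxk
    xo := hxo
    xt := hxt
    m := by
      unfold mu
      simp only [add_mul, Finset.sum_add_distrib]
      have e1 : ∑ i, (1 - s) * p' i * x' i = (1 - s) * r' := by
        rw [hr']
        unfold mu
        rw [Finset.mul_sum]
        exact Finset.sum_congr rfl fun i _ => by ring
      have e2 : ∑ i, (if i = t then s else 0) * x' i = s * k := by
        simp only [ite_mul, zero_mul]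
        rw [Finset.sum_ite_eq' Finset.univ t]
        simp [hxt]
      rw [e1, e2]
      linarith }
  have h1 := hmin.2 _ _ hfe
  rw [hM ι p' x' k t s k hx0 hxt] at h1
  have h2 : (1 - s) ^ k < 1 := pow_lt_one₀ (by linarith) (by linarith) (by omega)
  nlinarith

/-- job DER -/
theorem der : S_EEL → S_DER := by
  intro _ ι _ p d x n
  induction n with
  | zero =>
    intro f
    change HasDerivAt (fun u : ℝ => ∑ i, (p i + u * d i) * f (0 + x i))
      (((0 : ℕ) + 1 : ℝ) * ∑ i, d i * f (0 + x i)) 0
    have h : HasDerivAt (fun u : ℝ => ∑ i, (p i + u * d i) * f (0 + x i))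
        (∑ i, (d i) * f (0 + x i)) 0 := by
      apply HasDerivAt.fun_sum
      intro i _
      apply HasDerivAt.mul_const
      have := ((hasDerivAt_id (0 : ℝ)).mul_const (d i)).const_add (p i)
      simpa using this
    convert h using 1
    push_cast
    ring
  | succ n ih =>
    intro f
    change HasDerivAt (fun u : ℝ => ∑ i, (p i + u * d i) *
      EE (fun i => p i + u * d i) x (n + 1) (fun s => f (s + x i))) _ 0
    have h : HasDerivAt (fun u : ℝ => ∑ i, (p i + u * d i) *
        EE (fun i => p i + u * d i) x (n + 1) (fun s => f (s + x i)))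
        (∑ i, (d i * EE p x (n + 1) (fun s => f (s + x i)) +
          p i * ((n + 1 : ℝ) * ∑ j, d j * EE p x n (fun s => f (s + x j + x i))))) 0 := by
      apply HasDerivAt.fun_sum
      intro i _
      have h1 : HasDerivAt (fun u : ℝ => p i + u * d i) (d i) 0 := by
        have := ((hasDerivAt_id (0 : ℝ)).mul_const (d i)).const_add (p i)
        simpa using this
      have h2 := h1.fun_mul (ih (fun s => f (s + x i)))
      simp only [zero_mul, add_zero] at h2
      exact h2
    convert h using 1
    rw [Finset.sum_add_distrib]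
    have e : ∑ i, p i * ((n + 1 : ℝ) * ∑ j, d j * EE p x n (fun s => f (s + x j + x i)))
        = (n + 1 : ℝ) * ∑ j, d j * EE p x (n + 1) (fun s => f (s + x j)) := by
      have e1 : ∀ j, EE p x (n + 1) (fun s => f (s + x j))
          = ∑ i, p i * EE p x n (fun s => f (s + x j + x i)) := by
        intro j
        change ∑ i, p i * EE p x n (fun s => f (s + x i + x j)) = _
        refine Finset.sum_congr rfl fun i _ => ?_
        congr 2
        funext s
        congr 1
        ring
      simp only [e1, Finset.mul_sum]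
      rw [Finset.sum_comm]
      refine Finset.sum_congr rfl fun j _ => Finset.sum_congr rfl fun i _ => by ring
    rw [e]
    push_cast
    ring

/-- job RES -/
theorem res : S_RES := by
  intro ι _ p x hp _
  have h2 : ∀ g : ι → ℝ, ∑ i : {i : ι // 0 < p i}, p i * g i = ∑ i, p i * g i := by
    classical
    intro g
    rw [← Finset.sum_subtype (Finset.univ.filter fun i => 0 < p i) (by simp)
      (fun i => p i * g i)]
    apply Finset.sum_subset (Finset.subset_univ _)
    intro i _ hi
    have h3 : p i = 0 := by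
      simp only [Finset.mem_filter, Finset.mem_univ, true_and, not_lt] at hi
      exact le_antisymm hi (hp i)
    rw [h3, zero_mul]
  refine ⟨?_, h2⟩
  intro n
  induction n with
  | zero => intro f; rfl
  | succ n ih =>
    intro f
    change ∑ i : {i : ι // 0 < p i}, p i * EE (fun i : {i : ι // 0 < p i} => p i)
      (fun i => x i) n (fun s => f (s + x i)) = ∑ i, p i * EE p x n (fun s => f (s + x i))
    rw [← h2 (fun i => EE p x n (fun s => f (s + x i)))]
    exact Finset.sum_congr rfl fun i _ => by rw [ih]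

/-- job GPN -/
theorem gpn : S_GPN := by
  intro a u ha0 ha h1 h2
  have g0 : 0 < (1 / 20 : ℝ) * (4 / 100 + (1 - 13 / 10 * (a + 1 / 20)) ^ 2)
      - 4 / 100 * (8 / 10 - a) := by
    nlinarith [mul_nonneg ha0 (sub_nonneg.mpr ha)]
  have g1 : 0 < (1 / 2 - a) * (4 / 100 + (1 - 13 / 10 * (1 / 2)) ^ 2)
      - 4 / 100 * (8 / 10 - a) := by
    nlinarith
  have key : (9 / 20 - a) * ((u - a) * (4 / 100 + (1 - 13 / 10 * u) ^ 2)
      - 4 / 100 * (8 / 10 - a))
      = (1 / 2 - u) * ((1 / 20 : ℝ) * (4 / 100 + (1 - 13 / 10 * (a + 1 / 20)) ^ 2)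
        - 4 / 100 * (8 / 10 - a))
      + (u - (a + 1 / 20)) * ((1 / 2 - a) * (4 / 100 + (1 - 13 / 10 * (1 / 2)) ^ 2)
        - 4 / 100 * (8 / 10 - a))
      + (9 / 20 - a) * ((u - (a + 1 / 20)) * (1 / 2 - u) * (16705 / 10000 - 169 / 100 * u)) := by
    ring
  have h3 : 0 ≤ u - (a + 1 / 20) := by linarith
  have h4 : 0 ≤ 1 / 2 - u := by linarith
  have h5 : 0 < 9 / 20 - a := by linarith
  have h6 : 0 ≤ (9 / 20 - a) * ((u - (a + 1 / 20)) * (1 / 2 - u) *
      (16705 / 10000 - 169 / 100 * u)) := by
    apply mul_nonneg h5.le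
    apply mul_nonneg (mul_nonneg h3 h4)
    linarith
  have h7 : 0 < (9 / 20 - a) * ((u - a) * (4 / 100 + (1 - 13 / 10 * u) ^ 2)
      - 4 / 100 * (8 / 10 - a)) := by
    rw [key]
    rcases h3.lt_or_eq with h | h
    · have := mul_pos h g1
      have := mul_nonneg h4 g0.le
      linarith
    · rw [← h]
      have h8 : 0 < 1 / 2 - u := by linarith
      have := mul_pos h8 g0
      have := h6
      rw [← h] at this
      linarith
  have h8 := (mul_pos_iff_of_pos_left h5).mp h7
  linarith

end Pool.Agent.Q96.EM
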