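import Pool.Agent.Q54.EM.StmE

set_option autoImplicit false
set_option linter.unusedSectionVars false

namespace Pool.Agent.Q96.EM

open Finset Pool.Agent.Q54.EM

/-- job VEH -/
theorem veh : S_COV → S_IDT → S_HL → S_LMB → S_POS → S_VEH := by
  intro hCOV hIDT hHL _ hPOS ι _ p x k l hk hL hm0 hm1 hKK
  have h1 := hCOV ι p x k l hk hL hm1 hKK
  have h2 := hIDT ι p x k l hk hL hm1 hKK
  obtain ⟨h3, h4, h5, h6, h7⟩ := hHL ι p x k l hk hL hm0 hm1 hKK
  have hP := hPOS ι p x hL
  have hW : 0 < PR p x k k := hP.1 k k le_rfl hk hm1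
  have hW1 : 0 < PR p x (k - 1) k := hP.1 (k - 1) k (by omega) hk hm1
  have hlam : 0 < lam k p x := div_pos hW hW1
  have hvw : 0 ≤ vw p x := by
    unfold vw
    refine Finset.sum_nonneg fun i _ => Finset.sum_nonneg fun j _ => ?_
    exact mul_nonneg (mul_nonneg (hL.pos i).le (hL.pos j).le)
      (mul_nonneg (hL.nn i) (sq_nonneg _))
  have hl : 0 < l := hKK.1
  have h8 : 0 ≤ k * vw p x / l := div_nonneg (mul_nonneg (Nat.cast_nonneg k) hvw) hl.le
  have h9 : lam k p x * (VV k p x + hh k p x * et k p x) ≤ lam k p x * (et k p x * l) := by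
    rw [h2] at h1
    linarith
  have h10 := le_of_mul_le_mul_left h9 hlam
  have h11 : et k p x ≤ hh k p x := by
    unfold et
    have : 0 ≤ (k : ℝ) * (1 - mu p x) := mul_nonneg (Nat.cast_nonneg k) (by linarith)
    linarith
  nlinarith [mul_nonneg (sub_nonneg.mpr h11) (sub_nonneg.mpr h3)]

/-- job CAN -/
theorem can : S_EEL → S_POS → S_CAN := by
  intro hE hPOS ι _ p x k hk hL hm1 y hy0 hyh
  have hP := hPOS ι p x hL
  have hW : 0 < PR p x k k := hP.1 k k le_rfl hk hm1
  obtain ⟨hadd, hsub, hmul, hmono, -, -⟩ := hE ι p x k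
  have hmono' := hmono (fun i => (hL.pos i).le) hL.nn
  -- the expectation of a quadratic function of `D` on `S < k`
  have hquad : ∀ a b : ℝ, EE p x k (fun s => (if s < (k : ℝ) then (1 : ℝ) else 0) *
      (a + b * (k - s)) ^ 2) = a ^ 2 * PR p x k k + (2 * a * b * GP p x k k + b ^ 2 * G2 p x k k) := by
    intro a b
    have e : (fun s : ℝ => (if s < (k : ℝ) then (1 : ℝ) else 0) * (a + b * (k - s)) ^ 2)
        = fun s => a ^ 2 * (if s < (k : ℝ) then (1 : ℝ) else 0) +
          (2 * a * b * max (k - s) 0 + b ^ 2 * (max (k - s) 0) ^ 2) := by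
      funext s
      split_ifs with h
      · rw [max_eq_left (by linarith)]
        ring
      · rw [max_eq_right (by linarith)]
        ring
    rw [e, hadd, hadd, hmul, hmul, hmul]
    rfl
  have hGP : GP p x k k = hh k p x * PR p x k k := by
    unfold hh
    field_simp
  have hG2 : G2 p x k k = (VV k p x + hh k p x ^ 2) * PR p x k k := by
    unfold VV
    field_simp
    ring
  have hV : 0 ≤ VV k p x := by
    have h1 : 0 ≤ EE p x k (fun s => (if s < (k : ℝ) then (1 : ℝ) else 0) *
        (hh k p x + (-1) * (k - s)) ^ 2) := by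
      have h0 := hmono' (fun _ => 0) (fun s => (if s < (k : ℝ) then (1 : ℝ) else 0) *
        (hh k p x + (-1) * (k - s)) ^ 2) (fun s _ => by
          apply mul_nonneg
          · split_ifs <;> norm_num
          · exact sq_nonneg _)
      have h00 := hmul 0 (fun _ => (0 : ℝ))
      simp only [zero_mul] at h00
      rwa [h00] at h0
    rw [hquad, hGP, hG2] at h1
    have h2 : hh k p x ^ 2 * PR p x k k + (2 * hh k p x * -1 * (hh k p x * PR p x k k) +
        (-1) ^ 2 * ((VV k p x + hh k p x ^ 2) * PR p x k k)) = VV k p x * PR p x k k := by ring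
    rw [h2] at h1
    exact (mul_nonneg_iff_of_pos_right hW).mp h1
  set V := VV k p x with hVdef
  set H := hh k p x with hHdef
  have hg : 0 < H - y := by linarith
  have hpt := hmono' (fun s => ((H - y) ^ 2 + V) ^ 2 * ((if s < (k : ℝ) then (1 : ℝ) else 0) -
      (if s < (k : ℝ) - y then (1 : ℝ) else 0)))
    (fun s => (if s < (k : ℝ) then (1 : ℝ) else 0) *
      (((H - y) * H + V) + (-(H - y)) * (k - s)) ^ 2) (fun s _ => by
      split_ifs with h1 h2 h2
      · simp only [sub_self, mul_zero, one_mul]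
        exact sq_nonneg _
      · rw [sub_zero, mul_one, one_mul]
        apply pow_le_pow_left₀
        · positivity
        · push Not at h2
          have h3 : (k : ℝ) - s ≤ y := by linarith
          nlinarith
      · exfalso
        apply h1
        linarith
      · simp)
  rw [hmul, hsub, hquad, hGP, hG2] at hpt
  have h5 : ((H - y) * H + V) ^ 2 * PR p x k k + (2 * ((H - y) * H + V) * (-(H - y)) *
      (H * PR p x k k) + (-(H - y)) ^ 2 * ((V + H ^ 2) * PR p x k k))
      = ((H - y) ^ 2 + V) * (V * PR p x k k) := by ring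
  rw [h5] at hpt
  have h6 : 0 < (H - y) ^ 2 + V := by positivity
  have h7 : ((H - y) ^ 2 + V) * (((H - y) ^ 2 + V) * (PR p x k k - PR p x k (k - y)))
      ≤ ((H - y) ^ 2 + V) * (V * PR p x k k) := by
    calc ((H - y) ^ 2 + V) * (((H - y) ^ 2 + V) * (PR p x k k - PR p x k (k - y)))
        = ((H - y) ^ 2 + V) ^ 2 * (PR p x k k - PR p x k (k - y)) := by ring
      _ ≤ _ := hpt
  have h8 := le_of_mul_le_mul_left h7 h6
  nlinarith

end Pool.Agent.Q96.EM
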