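import Pool.Agent.Q86.EM.Stm5
import Pool.Agent.Q86.EM.Onm

/-!
# Project FD (helper86), job DON: one step for log-concave densities of bounded support
-/

set_option autoImplicit false

namespace Pool.Agent.Q96.EM.DON

open MeasureTheory Set Filter Topology
open scoped ENNReal InnerProductSpace ContDiff
open Pool.Agent.H888R2.KT (LC)
open Pool.Agent.Q86.FIB
open Pool.Agent.Q124.EM (nW)
open Pool.Agent.Q162.EM (scal_cov scal_P)
open Pool.Agent.Q86.EM

theorem PId_mono {κ : Type} [Fintype κ] {ρ : Eu κ → ℝ} (h0 : ∀ x, 0 ≤ ρ x) {c c' : ℝ} (h : c ≤ c')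
    (hc : PId ρ c) : PId ρ c' := fun f hf => (hc f hf).trans (mul_le_mul_of_nonneg_right
      (mul_le_mul_of_nonneg_right h (integral_nonneg h0))
      (integral_nonneg fun x => mul_nonneg (sq_nonneg _) (h0 x)))

theorem CVd_mono {κ : Type} [Fintype κ] {ρ : Eu κ → ℝ} {s s' : ℝ} (h : s ≤ s') (hs : CVd ρ s) :
    CVd ρ s' := fun θ => (hs θ).trans (mul_le_mul_of_nonneg_right
      (mul_le_mul_of_nonneg_right h (sq_nonneg _)) (sq_nonneg _))

/-- the bound of the covariances is nonnegative -/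
theorem CVd_nn {n : ℕ} (h6 : S_DCO) (h8 : S_DPT) {ρ : EK 1 n → ℝ} (hρ : LC ρ) {s : ℝ}
    (hs : CVd ρ s) : 0 ≤ s := by
  apply le_of_forall_pos_le_add
  intro ε hε
  obtain ⟨h₀, hh₀, H⟩ := h6 _ ρ hρ s hs ε hε
  exact CVm_nn (h8 _ ρ hρ h₀ hh₀).2.2.1 (H h₀ hh₀ le_rfl)

/-- **One step for densities of bounded support.** -/
theorem don (h1 : S_DFB) (h2 : S_MLN) (h3 : S_DLP) (h4 : S_DCR) (h5 : S_DTL) (h6 : S_DCO)
    (h7 : S_DSG) (h8 : S_DPT) : S_DON := by
  obtain ⟨C₁, hC₁, H1⟩ := h1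
  obtain ⟨C₂, hC₂, H2⟩ := h2
  obtain ⟨C₃, hC₃, H3⟩ := h3
  obtain ⟨C, hC⟩ : ∃ C : ℝ, C = max 1 (C₃ * (8 / 3 * (C₂ * (C₁ * (2 ^ 20 + 3))))) := ⟨_, rfl⟩
  have hC1 : 1 ≤ C := by
    rw [hC]
    exact le_max_left _ _
  have hC2 : C₃ * (8 / 3 * (C₂ * (C₁ * (2 ^ 20 + 3)))) ≤ C := by
    rw [hC]
    exact le_max_right _ _
  refine ⟨C, hC1, ?_⟩
  intro n ρ hρ k hk hsl
  have hk0 : 0 < k := by linarith
  have hC₁0 : 0 < C₁ := by linarith
  have pos : ∀ s : ℝ, 0 < s → CVd ρ s → PId ρ (C * k * s) := by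
    intro s hs hCV
    obtain ⟨M₀, hM₀, hcr⟩ := h4 n ρ hρ
    -- the level
    set τ : ℝ := (s / M₀) ^ 4 with hτ
    have hsM : 0 < s / M₀ := div_pos hs hM₀
    have hτ0 : 0 < τ := by positivity
    have hτr : τ ^ (-(1 / 4) : ℝ) = M₀ / s := by
      rw [hτ, ← Real.rpow_natCast, ← Real.rpow_mul hsM.le]
      norm_num
      rw [Real.rpow_neg_one, inv_div]
    obtain ⟨a, b, hab, ha, hb, η1, hη1, htl⟩ := h5 n ρ hρ τ hτ0
    have hslab : ∀ t ∈ Icc a b, KLSd (fun z : Eu (Fin n) => ρ (pt n t z)) k := fun t ht =>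
      hsl t ((h7 n ρ hρ a b hab ha hb).1 t ht).1
    obtain ⟨η2, hη2, hfb⟩ := H1 n ρ hρ k hk a b hab ha hb hslab s hs
    obtain ⟨η3, hη3, hco⟩ := h6 _ ρ hρ s hCV s hs
    obtain ⟨M, hM⟩ : ∃ M : ℝ, M = C₁ * (2 ^ 20 * k + 1) * s := ⟨_, rfl⟩
    have hM0 : 0 ≤ M := by
      rw [hM]
      positivity
    have hsM2 : s ≤ M := by
      rw [hM]
      have h1 : 1 ≤ C₁ * (2 ^ 20 * k + 1) := by nlinarith
      nlinarith
    have key : ∀ h : ℝ, 0 < h → h ≤ min (min η1 η2) (min η3 1) → ∀ f : EK 1 n → ℝ, ContDiff ℝ 1 f →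
        (∀ x, ‖fderiv ℝ f x‖ ≤ 1) →
        (∫ x, f x ^ 2 * Real.exp (-Uh h ρ x)) / (∫ x, Real.exp (-Uh h ρ x)) -
          ((∫ x, f x * Real.exp (-Uh h ρ x)) / ∫ x, Real.exp (-Uh h ρ x)) ^ 2 ≤
        8 / 3 * (C₂ * (M + 2 * s)) := by
      intro h hh0 hh f hf hf1
      have g1 : h ≤ η1 := (hh.trans (min_le_left _ _)).trans (min_le_left _ _)
      have g2 : h ≤ η2 := (hh.trans (min_le_left _ _)).trans (min_le_right _ _)
      have g3 : h ≤ η3 := (hh.trans (min_le_right _ _)).trans (min_le_left _ _)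
      have g4 : h ≤ 1 := (hh.trans (min_le_right _ _)).trans (min_le_right _ _)
      have hU : Pot (Uh h ρ) := (h8 _ ρ hρ h hh0).2.2.1
      obtain ⟨hstd, hone, hF⟩ := std_pot hU
      obtain ⟨hvt, hvz⟩ := var_pot hU (hco h hh0 g3)
      obtain ⟨c, hc⟩ : ∃ c : ℝ, c = Real.log (∫ y, Real.exp (-Uh h ρ y)) := ⟨_, rfl⟩
      have hWc : nW (Uh h ρ) = fun x => onSp (Uh h ρ) x + c := by
        rw [hc]
        rfl
      have e2 : s + s = 2 * s := by ring
      rw [e2] at hvt hvz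
      have h2s : 0 < 2 * s := by linarith
      have hFP : FibreP (nW (Uh h ρ)) (fun t => M * om (nW (Uh h ρ)) (t 0)) := by
        intro t φ hφ hφs
        have hom : 1 ≤ om (nW (Uh h ρ)) (t 0) := hstd.om_ge hone (t 0)
        by_cases ht : t 0 ∈ Icc a b
        · have hcov := hstd.covF hone h2s hvz t
          have hBB : BB (nW (Uh h ρ)) (2 * s) (t 0) = 2 ^ 19 * (2 * s) * om (nW (Uh h ρ)) (t 0) := rfl
          rw [hBB] at hcov
          obtain ⟨w, hw⟩ : ∃ w, w = om (nW (Uh h ρ)) (t 0) := ⟨_, rfl⟩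
          rw [← hw] at hcov hom
          simp only
          rw [← hw]
          have hσ : 0 ≤ 2 ^ 19 * (2 * s) * w := by positivity
          rw [hWc] at hcov ⊢
          have hcov2 := scal_cov (onSp (Uh h ρ)) c t _ hcov
          rw [← oo_zero t] at hcov2
          have h1 := hfb h hh0 g2 (t 0) ht _ hσ hcov2 φ hφ hφs
          rw [oo_zero t] at h1
          refine scal_P (onSp (Uh h ρ)) c t φ _ _ ?_ h1
          rw [hM]
          have h2 : k * (2 ^ 19 * (2 * s) * w) + s ≤ (2 ^ 20 * k + 1) * s * w := by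
            nlinarith
          calc C₁ * (k * (2 ^ 19 * (2 * s) * w) + s) ≤ C₁ * ((2 ^ 20 * k + 1) * s * w) :=
                mul_le_mul_of_nonneg_left h2 hC₁0.le
            _ = C₁ * (2 ^ 20 * k + 1) * s * w := by ring
        · have h1 := hcr h hh0 g4 t φ hφ hφs
          have hmn : mn (nW (Uh h ρ)) (t 0) ≤ τ := htl h hh0 g1 (t 0) ht
          have hmn0 : 0 < mn (nW (Uh h ρ)) (t 0) := mn_pos (hstd.ld hone) (t 0)
          have hom2 : M₀ / s ≤ om (nW (Uh h ρ)) (t 0) := by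
            rw [← hτr]
            unfold om
            exact Real.rpow_le_rpow_of_nonpos hmn0 hmn (by norm_num)
          have hMM : M₀ ≤ M * om (nW (Uh h ρ)) (t 0) := by
            have h3 : M₀ ≤ s * om (nW (Uh h ρ)) (t 0) := by
              rw [div_le_iff₀ hs] at hom2
              linarith
            exact h3.trans (mul_le_mul_of_nonneg_right hsM2 (by linarith))
          simp only
          obtain ⟨w, hw⟩ : ∃ w, w = om (nW (Uh h ρ)) (t 0) := ⟨_, rfl⟩
          rw [← hw] at hMM ⊢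
          rw [hWc]
          exact scal_P (onSp (Uh h ρ)) c t φ _ _ hMM h1
      have hWI := H2 n (nW (Uh h ρ)) hstd hone (2 * s) M h2s hM0 hvt hvz hFP
      have h4 := (hstd.ext_lip hone (D := C₂ * (M + 2 * s)) (by positivity) hWI
        (f := fun x => f ((spl 1 n).symm x)) (hf.comp (spl 1 n).symm.contDiff) (fun x => by
          rw [grad_spl hf]
          have := hf1 ((spl 1 n).symm x)
          have h0 := norm_nonneg (fderiv ℝ f ((spl 1 n).symm x))
          nlinarith)).2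
      rw [hF (fun x => f ((spl 1 n).symm x) ^ 2), hF (fun x => f ((spl 1 n).symm x))] at h4
      simp only [ContinuousLinearEquiv.symm_apply_apply] at h4
      exact h4
    have h := H3 _ ρ hρ (8 / 3 * (C₂ * (M + 2 * s))) (min (min η1 η2) (min η3 1))
      (lt_min (lt_min hη1 hη2) (lt_min hη3 one_pos)) key
    refine PId_mono hρ.nonneg ?_ h
    rw [hM]
    have e1 : C₁ * (2 ^ 20 * k + 1) * s + 2 * s ≤ C₁ * (2 ^ 20 + 3) * (k * s) := by
      have h8 : s ≤ k * s := by nlinarith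
      have h9 : k * s ≤ C₁ * (k * s) := by
        have : 0 ≤ k * s := by positivity
        nlinarith
      nlinarith
    calc C₃ * (8 / 3 * (C₂ * (C₁ * (2 ^ 20 * k + 1) * s + 2 * s))) ≤
          C₃ * (8 / 3 * (C₂ * (C₁ * (2 ^ 20 + 3) * (k * s)))) := by
            apply mul_le_mul_of_nonneg_left _ (by linarith)
            apply mul_le_mul_of_nonneg_left _ (by norm_num)
            exact mul_le_mul_of_nonneg_left e1 hC₂.le
      _ = (C₃ * (8 / 3 * (C₂ * (C₁ * (2 ^ 20 + 3))))) * (k * s) := by ring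
      _ ≤ C * (k * s) := mul_le_mul_of_nonneg_right hC2 (by positivity)
      _ = C * k * s := by ring
  intro s hCV f hf
  have hs0 := CVd_nn h6 h8 hρ hCV
  obtain ⟨E, hE⟩ : ∃ E, E = (∫ x, ρ x) * ∫ x, ‖fderiv ℝ f x‖ ^ 2 * ρ x := ⟨_, rfl⟩
  have hE0 : 0 ≤ E := by
    rw [hE]
    exact mul_nonneg (integral_nonneg hρ.nonneg)
      (integral_nonneg fun x => mul_nonneg (sq_nonneg _) (hρ.nonneg x))
  rw [mul_assoc, ← hE]
  apply le_of_forall_pos_le_add
  intro δ hδ
  have hCk : 0 ≤ C * k * E := by positivity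
  obtain ⟨ε, hε⟩ : ∃ ε : ℝ, ε = δ / (C * k * E + 1) := ⟨_, rfl⟩
  have hε0 : 0 < ε := by
    rw [hε]
    positivity
  have h := pos (s + ε) (by linarith) (CVd_mono (by linarith) hCV) f hf
  rw [mul_assoc, ← hE] at h
  refine h.trans ?_
  have h8 : C * k * E * ε ≤ δ := by
    rw [hε]
    calc C * k * E * (δ / (C * k * E + 1)) = δ * ((C * k * E) / (C * k * E + 1)) := by ring
      _ ≤ δ * 1 := by
          apply mul_le_mul_of_nonneg_left _ hδ.le
          rw [div_le_one (by linarith)]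
          linarith
      _ = δ := mul_one δ
  calc C * k * (s + ε) * E = C * k * s * E + C * k * E * ε := by ring
    _ ≤ C * k * s * E + δ := by linarith

end Pool.Agent.Q96.EM.DON
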